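import Pool.Agent.helper11.Tight.Defs

set_option linter.all false

/-! mod:T3b of MP_ce98d8_co: large bicliques of `Q` have a centre. -/

namespace Pool.Agent.helper11.Tight

open Finset

variable {V : Type*} [Fintype V] [DecidableEq V]

theorem bic_Q_symm {H : SimpleGraph V} {u v : V} (h : Q H u v) : Q H v u := by
  rcases h with h | ⟨w, h, h'⟩
  · exact Or.inl h.symm
  · exact Or.inr ⟨w, h', h⟩

/-- adjacent vertices are not in relation `Q` -/
theorem bic_not_Q {H : SimpleGraph V} {d : ℕ} (hH : Base H d) {u v : V} (h : H.Adj u v) :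
    ¬ Q H u v := by
  rintro (e | ⟨w, h1, h2⟩)
  · exact h.ne e
  · exact hH.tri u w v h1 h2.symm h

theorem bic_claim {H : SimpleGraph V} {d K : ℕ} (hH : Base H d) (hp : FewP3 H K)
    {A B : Finset V} (hQ : ∀ a ∈ A, ∀ b ∈ B, Q H a b) {w : V}
    (hw : K + 1 ≤ (B ∩ nb H w).card) : ∀ a ∈ A, H.Adj w a := by
  classical
  intro a ha
  by_contra hwa
  have hne : w ≠ a := by
    rintro rfl
    obtain ⟨b, hb⟩ : (B ∩ nb H w).Nonempty := by
      rw [← Finset.card_pos]; omega
    rw [Finset.mem_inter, mem_nb] at hb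
    exact bic_not_Q hH hb.2 (hQ w ha b hb.1)
  have hex : ∀ b ∈ B ∩ nb H w, ∃ z, H.Adj b z ∧ H.Adj z a := by
    intro b hb
    rw [Finset.mem_inter, mem_nb] at hb
    rcases hQ a ha b hb.1 with e | ⟨z, h1, h2⟩
    · exact absurd (e ▸ hb.2) hwa
    · exact ⟨z, h2, h1.symm⟩
  have : (B ∩ nb H w).card ≤ (P3 H w a).card := by
    refine Finset.card_le_card_of_injOn
      (fun b => if h : ∃ z, H.Adj b z ∧ H.Adj z a then (b, h.choose) else (b, b)) ?_ ?_
    · intro b hb
      have hb' := hex b hb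
      simp only [dif_pos hb']
      have hz := hb'.choose_spec
      have hbm := hb
      rw [Finset.mem_coe, Finset.mem_inter, mem_nb] at hbm
      rw [Finset.mem_coe, mem_P3]
      refine ⟨hbm.2, hz.1, hz.2, ?_, ?_⟩
      · intro e
        exact hwa (e ▸ hbm.2)
      · intro e
        exact hwa (e ▸ hz.2)
    · intro b hb b' hb' e
      simp only [dif_pos (hex b hb), dif_pos (hex b' hb')] at e
      exact congrArg Prod.fst e
  have := hp w a hne
  omega

open Classical in
/-- no vertex has three neighbours in `T` -/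
def BicNo3 (H : SimpleGraph V) (T : Finset V) : Prop := ∀ w, (T.filter (fun t => H.Adj w t)).card ≤ 2

theorem bic_no3_step {H : SimpleGraph V} {d K : ℕ} (hH : Base H d) {S T : Finset V}
    (hS : 100 * (K + 2) < S.card) (hSK : ∀ w, (S ∩ nb H w).card ≤ K) (hT : T.card ≤ 13)
    (h3 : BicNo3 H T) : ∃ x ∈ S, x ∉ T ∧ BicNo3 H (insert x T) := by
  classical
  set bad : Finset V := T ∪ (T.powersetCard 2).biUnion
    (fun P => S.filter (fun x => ∃ w, (∀ t ∈ P, H.Adj w t) ∧ H.Adj w x)) with hbad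
  have hP : ∀ P ∈ T.powersetCard 2,
      (S.filter (fun x => ∃ w, (∀ t ∈ P, H.Adj w t) ∧ H.Adj w x)).card ≤ K := by
    intro P hP
    rw [Finset.mem_powersetCard] at hP
    obtain ⟨t1, t2, hne, rfl⟩ := Finset.card_eq_two.mp hP.2
    by_cases hex : ∃ w, ∀ t ∈ ({t1, t2} : Finset V), H.Adj w t
    · obtain ⟨w, hw⟩ := hex
      refine le_trans (Finset.card_le_card ?_) (hSK w)
      intro x hx
      rw [Finset.mem_filter] at hx
      obtain ⟨hxS, w', hw', hx'⟩ := hx
      have : w' = w := hH.c4 t1 t2 w' w hne (hw' t1 (by simp)).symm (hw' t2 (by simp)).symm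
        (hw t1 (by simp)).symm (hw t2 (by simp)).symm
      rw [Finset.mem_inter, mem_nb]
      exact ⟨hxS, this ▸ hx'⟩
    · rw [Finset.filter_false_of_mem]
      · simp
      · rintro x hx ⟨w, hw, -⟩
        exact hex ⟨w, hw⟩
  have hcard : bad.card ≤ 13 + 78 * K := by
    refine le_trans (Finset.card_union_le _ _) (Nat.add_le_add hT ?_)
    refine le_trans Finset.card_biUnion_le ?_
    refine le_trans (Finset.sum_le_sum hP) ?_
    rw [Finset.sum_const, smul_eq_mul, Finset.card_powersetCard]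
    refine Nat.mul_le_mul_right _ ?_
    calc T.card.choose 2 ≤ (13).choose 2 := Nat.choose_le_choose 2 hT
      _ = 78 := by decide
  obtain ⟨x, hxS, hx⟩ : ∃ x ∈ S, x ∉ bad := by
    by_contra hcon
    push Not at hcon
    have := Finset.card_le_card (show S ⊆ bad from hcon)
    omega
  rw [hbad, Finset.mem_union, not_or] at hx
  refine ⟨x, hxS, hx.1, ?_⟩
  intro w
  by_cases hwx : H.Adj w x
  · rw [Finset.filter_insert, if_pos hwx]
    refine le_trans (Finset.card_insert_le _ _) ?_
    have : (T.filter (fun t => H.Adj w t)).card ≤ 1 := by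
      by_contra hgt
      push Not at hgt
      obtain ⟨P, hPs, hPc⟩ := Finset.exists_subset_card_eq (show 2 ≤ _ from hgt)
      apply hx.2
      rw [Finset.mem_biUnion]
      refine ⟨P, ?_, ?_⟩
      · rw [Finset.mem_powersetCard]
        exact ⟨hPs.trans (Finset.filter_subset _ _), hPc⟩
      · rw [Finset.mem_filter]
        exact ⟨hxS, w, fun t ht => (Finset.mem_filter.mp (hPs ht)).2, hwx⟩
    omega
  · rw [Finset.filter_insert, if_neg hwx]
    exact h3 w

theorem bic_no3_many {H : SimpleGraph V} {d K : ℕ} (hH : Base H d) {S : Finset V}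
    (hS : 100 * (K + 2) < S.card) (hSK : ∀ w, (S ∩ nb H w).card ≤ K) (n : ℕ) :
    ∀ T : Finset V, T.card + n ≤ 14 → BicNo3 H T →
      ∃ S' : Finset V, S' ⊆ S ∧ S'.card = n ∧ Disjoint S' T ∧ BicNo3 H (S' ∪ T) := by
  classical
  induction n with
  | zero =>
    intro T _ h3
    exact ⟨∅, by simp, by simp, by simp, by simpa using h3⟩
  | succ n ih =>
    intro T hT h3
    obtain ⟨S', h1, h2, h4, h5⟩ := ih T (by omega) h3
    have hc : (S' ∪ T).card ≤ 13 := le_trans (Finset.card_union_le _ _) (by omega)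
    obtain ⟨x, hx, hx', hx3⟩ := bic_no3_step hH hS hSK hc h5
    rw [Finset.mem_union, not_or] at hx'
    refine ⟨insert x S', ?_, ?_, ?_, ?_⟩
    · exact Finset.insert_subset hx h1
    · rw [Finset.card_insert_of_notMem hx'.1, h2]
    · rw [Finset.disjoint_insert_left]
      exact ⟨hx'.2, h4⟩
    · rwa [Finset.insert_union]

theorem bic_of {H : SimpleGraph V} {d K : ℕ} (hH : Base H d) (hp : FewP3 H K)
    (hs : ¬ Sub77 H) : Bic H (100 * (K + 2)) := by
  classical
  intro A B hA hB hQ
  have hQ' : ∀ b ∈ B, ∀ a ∈ A, Q H b a := fun b hb a ha => bic_Q_symm (hQ a ha b hb)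
  by_cases h1 : ∃ w, K + 1 ≤ (B ∩ nb H w).card
  · obtain ⟨w, hw⟩ := h1
    have hAw := bic_claim hH hp hQ hw
    have hAc : K + 1 ≤ (A ∩ nb H w).card := by
      have : A ∩ nb H w = A := by
        rw [Finset.inter_eq_left]
        intro a ha
        rw [mem_nb]
        exact hAw a ha
      rw [this]; omega
    exact ⟨w, hAw, bic_claim hH hp hQ' hAc⟩
  by_cases h2 : ∃ w, K + 1 ≤ (A ∩ nb H w).card
  · obtain ⟨w, hw⟩ := h2
    have hBw := bic_claim hH hp hQ' hw
    have hBc : K + 1 ≤ (B ∩ nb H w).card := by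
      have : B ∩ nb H w = B := by
        rw [Finset.inter_eq_left]
        intro a ha
        rw [mem_nb]
        exact hBw a ha
      rw [this]; omega
    exact ⟨w, bic_claim hH hp hQ hBc, hBw⟩
  exfalso
  push Not at h1 h2
  have hSA : ∀ w, (A ∩ nb H w).card ≤ K := fun w => by have := h2 w; omega
  have hSB : ∀ w, (B ∩ nb H w).card ≤ K := fun w => by have := h1 w; omega
  obtain ⟨A', hA', hA'c, -, hA3⟩ := bic_no3_many hH hA hSA 7 ∅ (by simp) (fun w => by simp)
  rw [Finset.union_empty] at hA3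
  obtain ⟨B', hB', hB'c, hdis, hB3⟩ := bic_no3_many hH hB hSB 7 A' (by omega) hA3
  let ea := (Finset.equivFinOfCardEq hA'c).symm
  let eb := (Finset.equivFinOfCardEq hB'c).symm
  have haA : ∀ i, (ea i : V) ∈ A := fun i => hA' (ea i).2
  have hbB : ∀ i, (eb i : V) ∈ B := fun i => hB' (eb i).2
  have hab : ∀ i j, (ea i : V) ≠ (eb j : V) := by
    intro i j e
    exact (Finset.disjoint_left.mp hdis (eb j).2) (e ▸ (ea i).2)
  have hw : ∀ p : Fin 7 × Fin 7, ∃ w, H.Adj (ea p.1) w ∧ H.Adj (eb p.2) w := by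
    intro p
    rcases hQ _ (haA p.1) _ (hbB p.2) with e | h
    · exact absurd e (hab _ _)
    · exact h
  choose w hw1 hw2 using hw
  -- no three of the fourteen points have a common neighbour
  have hno : ∀ (v x y z : V), x ∈ B' ∪ A' → y ∈ B' ∪ A' → z ∈ B' ∪ A' → x ≠ y → x ≠ z → y ≠ z →
      H.Adj v x → H.Adj v y → H.Adj v z → False := by
    intro v x y z hx hy hz hxy hxz hyz h1 h2 h3
    have hsub : ({x, y, z} : Finset V) ⊆ (B' ∪ A').filter (fun t => H.Adj v t) := by
      intro t ht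
      simp only [Finset.mem_insert, Finset.mem_singleton] at ht
      rw [Finset.mem_filter]
      rcases ht with rfl | rfl | rfl
      · exact ⟨hx, h1⟩
      · exact ⟨hy, h2⟩
      · exact ⟨hz, h3⟩
    have hc := Finset.card_le_card hsub
    have h3c : ({x, y, z} : Finset V).card = 3 := by
      rw [Finset.card_eq_three]
      exact ⟨x, y, z, hxy, hxz, hyz, rfl⟩
    have := hB3 v
    omega
  have hmA : ∀ i, (ea i : V) ∈ B' ∪ A' := fun i => Finset.mem_union_right _ (ea i).2
  have hmB : ∀ i, (eb i : V) ∈ B' ∪ A' := fun i => Finset.mem_union_left _ (eb i).2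
  have hinja : Function.Injective (fun i => (ea i : V)) :=
    Subtype.val_injective.comp ea.injective
  have hinjb : Function.Injective (fun i => (eb i : V)) :=
    Subtype.val_injective.comp eb.injective
  apply hs
  refine ⟨fun i => ea i, fun i => eb i, w, hinja, hinjb, ?_, hab, ?_, ?_, ?_⟩
  · rintro ⟨i, j⟩ ⟨i', j'⟩ e
    have e1 := hw1 (i, j)
    have e2 := hw2 (i, j)
    have e3 := hw1 (i', j')
    have e4 := hw2 (i', j')
    rw [← e] at e3 e4
    simp only at e1 e2 e3 e4
    by_cases hi : i = i'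
    · by_cases hj : j = j'
      · rw [hi, hj]
      · exfalso
        exact hno _ _ _ _ (hmA i) (hmB j) (hmB j') (hab _ _) (hab _ _)
          (fun h => hj (hinjb h)) e1.symm e2.symm e4.symm
    · exfalso
      exact hno _ _ _ _ (hmA i) (hmA i') (hmB j) (fun h => hi (hinja h)) (hab _ _) (hab _ _)
        e1.symm e3.symm e2.symm
  · rintro i ⟨i', j⟩ e
    have e2 := hw2 (i', j)
    rw [← e] at e2
    exact bic_not_Q hH e2.symm (hQ _ (haA i) _ (hbB j))
  · rintro j ⟨i, j'⟩ e
    have e1 := hw1 (i, j')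
    rw [← e] at e1
    exact bic_not_Q hH e1 (hQ _ (haA i) _ (hbB j))
  · intro i j
    exact ⟨hw1 (i, j), hw2 (i, j)⟩

end Pool.Agent.helper11.Tight
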