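import Pool.Agent.helper52.Tight.PC

set_option linter.all false

/-! Numerics of MP_ce98d8_co (mod:T11a): `PC`, `pc_of`, `par_exists`. -/

namespace Pool.Agent.helper11.Tight

theorem num_mono_aux {c R a i j k l : ℕ} (hc : 1 ≤ c) (hR : 1 ≤ R) (ha : a ≤ c) (hij : i + 1 ≤ j)
    (hkl : k ≤ l) : a * (c ^ i * R ^ k) ≤ c ^ j * R ^ l := by
  calc a * (c ^ i * R ^ k) ≤ c * (c ^ i * R ^ k) := Nat.mul_le_mul_right _ ha
    _ = c ^ (i + 1) * R ^ k := by ring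
    _ ≤ c ^ j * R ^ l := Nat.mul_le_mul (Nat.pow_le_pow_right hc hij) (Nat.pow_le_pow_right hR hkl)

theorem num_q_le {d : ℕ} (hd : 1 ≤ d) : 1 + d * (d - 1) ≤ d ^ 2 := by
  obtain ⟨e, rfl⟩ : ∃ e, d = e + 1 := ⟨d - 1, by omega⟩
  simp only [Nat.add_sub_cancel]
  nlinarith

theorem par_c_large {A s c d M β : ℕ} (h : Par A s c d M β) : 18000 * (A + 1) ≤ c := by
  have h1 := h.hs
  have h2 := h.hc
  have h3 := h.hA
  have hs : 18 ≤ s := by
    by_contra hlt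
    push Not at hlt
    have : 2 ^ s ≤ 2 ^ 17 := Nat.pow_le_pow_right (by norm_num) (by omega)
    rcases Nat.lt_or_ge s 13 with h4 | h4
    · have : 2 ^ s ≤ 2 ^ 12 := Nat.pow_le_pow_right (by norm_num) (by omega)
      nlinarith
    · nlinarith
  nlinarith

theorem pc_of {A s c d1 M1 β1 d2 M2 β2 : ℕ} (h1 : Par A s c d1 M1 β1)
    (h2 : Par (A + 5) s c d2 M2 β2) :
    ∃ q1 m1 q2 r2, PC d1 M1 β1 q1 m1 d2 M2 β2 (c ^ (A + 3)) q2 r2 (8 * A + 48)
      (100 * (8 * A + 50)) := by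
  have hA := h1.hA
  have hcl := par_c_large h1
  have hc1 : 1 ≤ c := by linarith
  have hθc : 2 * (100 * (8 * A + 50)) ≤ c := by linarith
  have hθc1 : 100 * (8 * A + 50) ≤ c := by linarith
  have hKc100 : 100 * (8 * A + 48) ≤ c := by linarith
  have hKc4 : 4 * (8 * A + 48) ≤ c := by linarith
  have hKc2 : 2 * (8 * A + 48) ≤ c := by linarith
  have hcc : 1000 ≤ c := by linarith
  have hcc1 : 100 ≤ c := by linarith
  obtain ⟨R, hRdef⟩ : ∃ R, R = c ^ (A - 10) := ⟨_, rfl⟩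
  have hR : 1 ≤ R := by rw [hRdef]; exact Nat.one_le_pow _ _ (by omega)
  have hP : c ^ A = c ^ 10 * R ^ 1 := by
    rw [hRdef, ← pow_mul, mul_one, ← pow_add]; congr 1; omega
  have d1e : d1 = c ^ 10 * R ^ 1 := by rw [h1.hd, hP]
  have d2e : d2 = c ^ 15 * R ^ 1 := by
    rw [h2.hd, pow_add, hP]; ring
  have M1e : M1 = c ^ 31 * R ^ 3 := by
    rw [h1.hM, pow_add, pow_mul', hP]; ring
  have M2e : M2 = c ^ 46 * R ^ 3 := by
    rw [h2.hM, show 3 * (A + 5) + 1 = 3 * A + 16 by ring, pow_add, pow_mul', hP]; ring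
  have β1e : β1 = c ^ 22 * R ^ 2 := by
    rw [h1.hβ, pow_add, pow_mul', hP]; ring
  have β2e : β2 = c ^ 32 * R ^ 2 := by
    rw [h2.hβ, show 2 * (A + 5) + 2 = 2 * A + 12 by ring, pow_add, pow_mul', hP]; ring
  have e2e : c ^ (A + 3) = c ^ 13 * R ^ 1 := by
    rw [pow_add, hP]; ring
  have hcR : ∀ i k, 1 ≤ c ^ i * R ^ k := fun i k => Nat.mul_pos (by positivity) (by positivity)
  have hd1 : 1 ≤ d1 := d1e ▸ hcR 10 1
  have hd2 : 1 ≤ d2 := d2e ▸ hcR 15 1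
  set q1 := 1 + d1 * (d1 - 1) with hq1
  set q2 := 1 + d2 * (d2 - 1) with hq2
  have q1l : q1 ≤ c ^ 20 * R ^ 2 := by
    refine le_trans (num_q_le hd1) (le_of_eq ?_); rw [d1e]; ring
  have q2l : q2 ≤ c ^ 30 * R ^ 2 := by
    refine le_trans (num_q_le hd2) (le_of_eq ?_); rw [d2e]; ring
  have mono : ∀ {a i j k l : ℕ}, a ≤ c → i + 1 ≤ j → k ≤ l →
      a * (c ^ i * R ^ k) ≤ c ^ j * R ^ l := fun ha hij hkl => num_mono_aux hc1 hR ha hij hkl
  -- the basic comparisons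
  have b1 : 1000 * (c ^ 20 * R ^ 2) ≤ c ^ 31 * R ^ 3 := mono hcc (by norm_num) (by norm_num)
  have b2 : 1000 * (c ^ 10 * R ^ 1) ≤ c ^ 31 * R ^ 3 := mono hcc (by norm_num) (by norm_num)
  have b3 : 1000 * (c ^ 25 * R ^ 2) ≤ c ^ 31 * R ^ 3 := mono hcc (by norm_num) (by norm_num)
  have b4 : 1000 * (c ^ 22 * R ^ 2) ≤ c ^ 31 * R ^ 3 := mono hcc (by norm_num) (by norm_num)
  have b5 : (100 * (8 * A + 48)) * (c ^ 30 * R ^ 2) ≤ c ^ 31 * R ^ 3 :=
    mono hKc100 (by norm_num) (by norm_num)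
  have b5' : 100 * ((8 * A + 48) * q2) ≤ c ^ 31 * R ^ 3 :=
    le_trans (by
      calc 100 * ((8 * A + 48) * q2) = (100 * (8 * A + 48)) * q2 := by ring
        _ ≤ (100 * (8 * A + 48)) * (c ^ 30 * R ^ 2) := Nat.mul_le_mul_left _ q2l) b5
  have m1l : 100 * (q1 + d1) ≤ M1 := by
    rw [M1e]
    have : d1 ≤ c ^ 10 * R ^ 1 := d1e.le
    omega
  have dd : d1 * d2 = c ^ 25 * R ^ 2 := by rw [d1e, d2e]; ring
  refine ⟨q1, M1 - (q1 + d1), q2, M2 - q2, ?_⟩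
  have q2M : q2 ≤ M2 := by
    rw [M2e]
    have := mono (a := 1000) (i := 30) (j := 46) (k := 2) (l := 3) hcc (by norm_num) (by norm_num)
    omega
  constructor
  · rfl
  · rfl
  · omega
  · omega
  · rw [β1e]; exact hcR _ _
  · rw [β2e]; exact hcR _ _
  · omega
  · omega
  · rw [d2e]
    have := mono (a := 2 * (100 * (8 * A + 50))) (i := 0) (j := 15) (k := 0) (l := 1)
      hθc (by norm_num) (by norm_num)
    simpa using this
  · rw [d1e]
    have := mono (a := 4 * (8 * A + 48)) (i := 0) (j := 10) (k := 0) (l := 1)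
      hKc4 (by norm_num) (by norm_num)
    simpa using this
  · rw [e2e]
    have := mono (a := 2 * (8 * A + 48)) (i := 0) (j := 13) (k := 0) (l := 1)
      hKc2 (by norm_num) (by norm_num)
    simpa using this
  · -- N1
    have t : d1 * M2 = c ^ 56 * R ^ 4 := by rw [d1e, M2e]; ring
    have t1 : 1000 * (d1 * q2) ≤ c ^ 56 * R ^ 4 := by
      refine le_trans (Nat.mul_le_mul_left _ (Nat.mul_le_mul_left _ q2l)) ?_
      rw [d1e]
      calc 1000 * (c ^ 10 * R ^ 1 * (c ^ 30 * R ^ 2)) = 1000 * (c ^ 40 * R ^ 3) := by ring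
        _ ≤ _ := mono hcc (by norm_num) (by norm_num)
    have t2 : 100 * ((100 * (8 * A + 50)) * M2) ≤ c ^ 56 * R ^ 4 := by
      rw [M2e]
      calc 100 * ((100 * (8 * A + 50)) * (c ^ 46 * R ^ 3))
          ≤ c * (c * (c ^ 46 * R ^ 3)) :=
            Nat.mul_le_mul hcc1 (Nat.mul_le_mul_right _ hθc1)
        _ = c * (c ^ 47 * R ^ 3) := by ring
        _ ≤ _ := mono le_rfl (by norm_num) (by norm_num)
    have t3 : 1000 * (β1 * β2) ≤ c ^ 56 * R ^ 4 := by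
      rw [β1e, β2e]
      calc 1000 * (c ^ 22 * R ^ 2 * (c ^ 32 * R ^ 2)) = 1000 * (c ^ 54 * R ^ 4) := by ring
        _ ≤ _ := mono hcc (by norm_num) (by norm_num)
    have t4 : 1000 * (M1 * d2) ≤ c ^ 56 * R ^ 4 := by
      rw [M1e, d2e]
      calc 1000 * (c ^ 31 * R ^ 3 * (c ^ 15 * R ^ 1)) = 1000 * (c ^ 46 * R ^ 4) := by ring
        _ ≤ _ := mono hcc (by norm_num) (by norm_num)
    rw [t]
    rw [mul_assoc 4 β1 β2]
    omega
  · -- N2
    rw [β2e, M2e]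
    exact mono (by omega) (by norm_num) (by norm_num)
  · -- N3
    have t : d1 * β2 = c ^ 42 * R ^ 3 := by rw [d1e, β2e]; ring
    rw [t, M2e]
    have t1 : 1000 * (c ^ 30 * R ^ 2) ≤ c ^ 46 * R ^ 3 := mono hcc (by norm_num) (by norm_num)
    have t2 : 1000 * (c ^ 42 * R ^ 3) ≤ c ^ 46 * R ^ 3 := mono hcc (by norm_num) (by norm_num)
    omega
  · -- N4
    have t : d1 * c ^ (A + 3) = c ^ 23 * R ^ 2 := by rw [e2e, d1e]; ring
    rw [t, β1e]
    exact mono (by omega) (by norm_num) (by norm_num)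
  · -- N5
    have t1 : 1000 * (d1 * q2) ≤ c ^ 46 * R ^ 3 := by
      refine le_trans (Nat.mul_le_mul_left _ (Nat.mul_le_mul_left _ q2l)) ?_
      rw [d1e]
      calc 1000 * (c ^ 10 * R ^ 1 * (c ^ 30 * R ^ 2)) = 1000 * (c ^ 40 * R ^ 3) := by ring
        _ ≤ _ := mono hcc (by norm_num) (by norm_num)
    have t2 : 0 < c ^ 46 * R ^ 3 := hcR _ _
    rw [M2e, mul_assoc]
    omega
  · -- N6
    rw [mul_assoc 3 d1 d2, dd, β1e]
    have := hcR 31 3
    rw [M1e] at m1l ⊢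
    omega
  · -- N7
    rw [dd]
    have := hcR 25 2
    rw [M1e] at m1l ⊢
    omega
  · -- N8
    have := hcR 31 3
    rw [M1e] at m1l ⊢
    omega
  · -- N9
    rw [β1e]
    rw [M1e] at m1l ⊢
    omega

theorem par_exists (A : ℕ) (hA : 10 ≤ A) : ∃ s0, ∀ s, s0 ≤ s →
    Par A s (2 ^ s) ((2 ^ s) ^ A) ((2 ^ s) ^ (3 * A + 1)) ((2 ^ s) ^ (2 * A + 2)) := by
  obtain ⟨N, hN⟩ : ∃ N, N = 1000 * (A + 1) := ⟨_, rfl⟩
  refine ⟨2 * N + 2, fun s hs => ⟨hA, rfl, rfl, rfl, rfl, ?_⟩⟩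
  rw [← hN]
  clear hN
  induction s, hs using Nat.le_induction with
  | base =>
    have h1 : N + 1 ≤ 2 ^ N := Nat.lt_two_pow_self
    have h2 : 2 ^ (2 * N + 2) = (2 * 2 ^ N) * (2 * 2 ^ N) := by ring
    rw [h2]
    calc N * (2 * N + 2 + 1) ≤ (2 * (N + 1)) * (2 * (N + 1)) := by nlinarith
      _ ≤ _ := Nat.mul_le_mul (by omega) (by omega)
  | succ s hs ih =>
    rw [pow_succ]
    nlinarith

end Pool.Agent.helper11.Tight
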